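import Pool.Agent.J4H44.BM.Flag

/-!
# The Künneth standard conjecture for very general complete intersections in a given variety

Let `W` be a Weil cohomology theory, `X` a smooth proper variety with a divisor `D` (for example an
ample one), and `L` the cup product with the class of `D`. We determine exactly what the Künneth
standard conjecture C, and each single Künneth component, mean for a general section `Y` of `X`.

A *general section* (`GeneralSection`) is a variety with the following properties of a very general
complete intersection of `X` with divisors of large degree which are multiples of the ample
divisor `D`: weak Lefschetz; the class of `Y` in `X` is a nonzero multiple of a power of `D`; there are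
vanishing cycles; a class of an algebraic cycle of codimension less than `dim Y` on `Y × Y` is the
restriction of such a class on `X × X`, and in codimension `dim Y` it is the sum of such a restriction
and of a rational multiple of the class of the diagonal. Over the complex numbers very general
complete intersections of large degree have these properties (the theorems of Lefschetz, the
irreducibility and the size of the monodromy group on the vanishing cohomology by Deligne, and the
description of the cycles on the relative square of the universal section by Voisin).

**Theorem.** Let `Y` be a general section of codimension `r` of `X`.

* For `i < dim Y` the component `π_i` of `Y` is algebraic if and only if the component `π_i` of `X` is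
  algebraic and the map `L ^ r : H^i(X) → H^(i + 2r)(X)` has an algebraic left inverse.
* C holds for `Y` if and only if this is so for all `i < dim Y`.
* The sign conjecture holds for `Y` if and only if, for all `i < dim Y` with `dim Y - i` odd, the map
  `L ^ r : H^i(X) → H^(i + 2r)(X)` has an algebraic left inverse, and some algebraic
  self-correspondence of `X` is the identity on `H^i(X)` and zero on the cohomology of the other
  parity.

So the conjecture C for the sections of `X`, a statement about correspondences of degree zero, is
equivalent to a statement about correspondences of negative degree on `X`, namely the part of the
Lefschetz standard conjecture below the middle degree: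

* For general sections `Y m` of `X` of all the dimensions `m` with `0 < m < n = dim X`, the following
  are equivalent: C holds for all the `Y m`; the sign conjecture holds for all the `Y m`, and the
  components `π_i` of `X` with `i < n - 1` are algebraic; these components are algebraic and all the
  maps `L ^ s : H^i(X) → H^(i + 2s)(X)` with `i + s < n` have algebraic left inverses.
-/

open CategoryTheory AlgebraicGeometry

universe u v

namespace Pool.Agent.Results.MP_4ca46c_ag.GeneralSections

open Pool.Agent.H914 Pool.Agent.H914.VarClass Pool.Agent.H914.VarClass.Obj
  Pool.Agent.H447 Pool.Agent.J4H44.BM

/-- **The Künneth conjecture for a general section, and for general sections of all dimensions.** -/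
theorem result {k : Type u} [Field k] {𝒱 : VarClass k} {ops : CycleOps 𝒱}
    (W : WeilCohomology.{u, v} ops) (X : 𝒱.Obj) (D : X.Cycles) (hD : X.IsCyc 1 D) :
    (∀ (Y : 𝒱.Obj) (j : Y ⟶ X), GeneralSection W j D → SectionCriteria W X Y D) ∧
    (∀ (Y : ℕ → 𝒱.Obj) (j : ∀ m, Y m ⟶ X), SectionsOfAllDims W X D Y j →
      FlagStatement W X D Y) :=
  ⟨fun _ _ G => ⟨fun _ hi => G.kunnethAt_iff hD hi, G.kunnethStd_iff hD, G.signStd_iff hD⟩,
    fun _ _ hY => flag_tfae hD hY⟩

end Pool.Agent.Results.MP_4ca46c_ag.GeneralSections
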