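import Pool.Agent.J4H47.GC.Fin
import Pool.Agent.J4H47.GC.Bfin
import Pool.Agent.J4H47.GC.Loc2
import Pool.Agent.J4H47.GC.Defs2
import Pool.Agent.J4H52.GC.Am2

/-!
# The conjecture C and the growth of the ranks of the groups of cycles on the powers

Let `W` be a Weil cohomology theory with coefficients in `K`, and `X` a smooth proper variety of
dimension `d`. Let `P(t)` be the Poincaré polynomial of `X`, and `N_m(t) = ∑ r_c t ^ (2 c)`, where `r_c`
is the rank of the group of the cycles of codimension `c` on `X ^ m` modulo numerical equivalence;
this polynomial does not depend on a cohomology theory. We say that the growth of the ranks is full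
at `t` if `N_m(t)` grows on the exponential scale as `P(t) ^ m`: for all `R < P(t)` there is an `m`
with `N_m(t) > R ^ m`. Let `δ(t) = min (1, t ^ (2 d - 2)) (t - 1) ^ 2`, which is positive for `t ≠ 1`.

**Theorem.** Suppose that the projector onto the even cohomology of `X` is algebraic (the sign
conjecture, a weak form of C).

* If C fails for `X`, more precisely if some projector onto `H^i(X)` is not induced by a
  `K`-linear combination of classes of cycles, then `N_m(t) ≤ (P(t) - δ(t)) ^ m` for all `t > 0` and
  all `m ≥ 1`. So if `N_m(t) > (P(t) - δ(t)) ^ m` for one `m ≥ 1` and one `t > 0`, then C holds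
  for `X` (with coefficients in `K`); in particular, full growth at one `t ≠ 1` implies C.
* Conversely, the Lefschetz standard conjecture B for `X` implies full growth at all `t > 0`.

The proof of the first part: write `1` as a sum of primitive idempotents `f` of the algebra of the
algebraic correspondences. By a trace argument, a class of codimension `c` on `X ^ m` which is not
orthogonal to all classes of cycles and lies in the image of `f_1 ⊗ ⋯ ⊗ f_m` satisfies
`2 c = q_1 + ⋯ + q_m`, where `q_i` is the average degree of the classes in `f_i H(X)`; if C fails,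
then some `f H(X)` has two different degrees, of the same parity, and the inequality of the means
has a defect at every `t ≠ 1`. The proof of the second part: the permutations of the factors of
`X ^ m` and the inverses of the Lefschetz isomorphisms give enough classes.
-/

open CategoryTheory AlgebraicGeometry

universe u v

namespace Pool.Agent.Results.MP_4ca46c_ag.GrowthOfRanks

open Pool.Agent.H914 Pool.Agent.H914.VarClass Pool.Agent.H914.VarClass.Obj
  Pool.Agent.H447 Pool.Agent.Y163 Pool.Agent.J4H47.GC

/-- **B implies full growth of the ranks, and large ranks on one power imply C.** -/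
theorem result {k : Type u} [Field k] {𝒱 : VarClass k} {ops : CycleOps 𝒱}
    (W : WeilCohomology.{u, v} ops) (X : 𝒱.Obj) :
    (SignStd W X → ∀ t : ℝ, 0 < t →
      (¬ KunnethSpan W X → ∀ n,
        numPoincare ops (pw X n) t ≤ (poincare W X t - defect X t) ^ (n + 1)) ∧
      ((∃ n, (poincare W X t - defect X t) ^ (n + 1) < numPoincare ops (pw X n) t) →
        KunnethSpan W X) ∧
      (t ≠ 1 → FullGrowth W X t → KunnethSpan W X)) ∧
    ((∀ c : W.K, ∃ r : ℚ, (r : W.K) = c) → KunnethSpan W X → KunnethStd W X) ∧
    (∀ D : X.Cycles, X.IsCyc 1 D → HardLefschetz W X D → LefschetzB W X D →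
      ∀ t : ℝ, 0 < t → FullGrowth W X t) := by
  refine ⟨fun hS t ht => ⟨fun hC n => main_any2 Pool.Agent.J4H52.GC.t_AM2 hS hC ht n, ?_,
    fun ht1 h => kunneth_of_growth hS ht ht1 h⟩, fun hQ h => kunnethStd_of_span hQ h,
    fun _ hD hHL hB _ ht => fullGrowth_of_B hD hHL hB ht⟩
  rintro ⟨n, hn⟩
  by_contra hC
  exact absurd (main_any2 Pool.Agent.J4H52.GC.t_AM2 hS hC ht n) (not_le.2 hn)

end Pool.Agent.Results.MP_4ca46c_ag.GrowthOfRanks
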